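import Pool.Agent.Lib.MP_240d5c_lc.Defs

set_option linter.unusedSectionVars false
set_option linter.unusedVariables false

/-!
# Baire category on the Cantor space and conditions
-/

namespace Pool.Agent.CPr

open Pool.Agent.KM Filter Topology

/-- The Cantor space. -/
abbrev Cs : Type := ℕ → Bool

/-- The basic clopen set of the condition `q`. -/
def cyl (q : List Bool) : Set Cs := {c | path c q.length = q}

/-- For comeager many `c` in the basic open set of `q`, `c ∈ S`. -/
def Cat (q : List Bool) (S : Set Cs) : Prop := ∀ᶠ c in residual Cs, c ∈ cyl q → c ∈ S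

theorem path_len (c : Cs) (m : ℕ) : (path c m).length = m := path_length c m

theorem mem_cyl_path (c : Cs) (m : ℕ) : c ∈ cyl (path c m) := by
  show path c (path c m).length = path c m
  rw [path_length]

theorem path_suffix (c : Cs) {m n : ℕ} (h : m ≤ n) : path c m <:+ path c n := by
  induction n, h using Nat.le_induction with
  | base => exact List.suffix_rfl
  | succ n hn ih => exact ih.trans (List.suffix_cons (c n) (path c n))

theorem cyl_anti {q q' : List Bool} (h : q <:+ q') : cyl q' ⊆ cyl q := by
  intro c hc
  have hc' : path c q'.length = q' := hc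
  show path c q.length = q
  have h1 : path c q.length <:+ q' := by
    have h2 := path_suffix c h.length_le
    rwa [hc'] at h2
  have h3 : path c q.length <:+ q :=
    List.suffix_of_suffix_length_le h1 h (by rw [path_length])
  exact h3.eq_of_length (by rw [path_length])

theorem suffix_or {c : Cs} {q q' : List Bool} (h : c ∈ cyl q) (h' : c ∈ cyl q') :
    q <:+ q' ∨ q' <:+ q := by
  have h1 : path c q.length = q := h
  have h2 : path c q'.length = q' := h'
  rcases le_total q.length q'.length with hl | hl
  · left
    have h3 := path_suffix c hl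
    rwa [h1, h2] at h3
  · right
    have h3 := path_suffix c hl
    rwa [h1, h2] at h3

theorem cyl_nonempty_congr {c d : Cs} {n : ℕ} (h : ∀ i, i < n → c i = d i) :
    path c n = path d n := by
  induction n with
  | zero => rfl
  | succ n ih =>
    show c n :: path c n = d n :: path d n
    rw [h n (Nat.lt_succ_self n), ih (fun i hi => h i (Nat.lt_succ_of_lt hi))]

theorem cyl_nonempty (q : List Bool) : (cyl q).Nonempty := by
  induction q with
  | nil => exact ⟨fun _ => false, rfl⟩
  | cons b t ih =>
    obtain ⟨c, hc⟩ := ih
    have hc' : path c t.length = t := hc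
    refine ⟨Function.update c t.length b, ?_⟩
    show Function.update c t.length b t.length ::
      path (Function.update c t.length b) t.length = b :: t
    rw [Function.update_self, cyl_nonempty_congr (c := Function.update c t.length b) (d := c)
      (n := t.length) (fun i hi => Function.update_of_ne hi.ne b c), hc']

theorem isOpen_cyl_path_eq {c c' : Cs} {m : ℕ} : path c' m = path c m ↔ ∀ i < m, c' i = c i := by
  induction m with
  | zero => exact ⟨fun _ i hi => absurd hi (Nat.not_lt_zero i), fun _ => rfl⟩
  | succ m ih =>
    have h1 : path c' (m + 1) = c' m :: path c' m := rfl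
    have h2 : path c (m + 1) = c m :: path c m := rfl
    rw [h1, h2, List.cons_eq_cons, ih]
    constructor
    · rintro ⟨h3, h4⟩ i hi
      rcases Nat.lt_succ_iff_lt_or_eq.1 hi with h | h
      · exact h4 i h
      · rw [h]; exact h3
    · intro h3
      exact ⟨h3 m (Nat.lt_succ_self m), fun i hi => h3 i (hi.trans (Nat.lt_succ_self m))⟩

theorem isOpen_cyl (q : List Bool) : IsOpen (cyl q) := by
  rw [isOpen_iff_forall_mem_open]
  intro c hc
  refine ⟨PiNat.cylinder (E := fun _ => Bool) c q.length, ?_,
    PiNat.isOpen_cylinder (fun _ => Bool) c q.length, PiNat.self_mem_cylinder c q.length⟩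
  intro c' hc'
  have h1 : path c' q.length = path c q.length := isOpen_cyl_path_eq.2 hc'
  exact h1.trans hc

theorem exists_cyl_subset {U : Set Cs} (hU : IsOpen U) {c : Cs} (hc : c ∈ U) :
    ∃ m, cyl (path c m) ⊆ U := by
  obtain ⟨v, ⟨x, n, rfl⟩, hcv, hv⟩ :=
    (PiNat.isTopologicalBasis_cylinders (fun _ => Bool)).exists_subset_of_mem_open hc hU
  refine ⟨n, fun c' hc' => hv ?_⟩
  have h1 : path c' (path c n).length = path c n := hc'
  rw [path_len] at h1
  have h2 := isOpen_cyl_path_eq.1 h1
  intro i hi
  rw [h2 i hi]
  exact hcv i hi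

theorem exists_cyl_subset' {U : Set Cs} (hU : IsOpen U) {c : Cs} (hc : c ∈ U) {q : List Bool}
    (hq : c ∈ cyl q) : ∃ q', q <:+ q' ∧ c ∈ cyl q' ∧ cyl q' ⊆ U := by
  obtain ⟨m, hm⟩ := exists_cyl_subset hU hc
  refine ⟨path c (max m q.length), ?_, mem_cyl_path c _, ?_⟩
  · have h1 : path c q.length = q := hq
    conv_lhs => rw [← h1]
    exact path_suffix c (le_max_right _ _)
  · exact (cyl_anti (path_suffix c (le_max_left _ _))).trans hm

end Pool.Agent.CPr
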