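import Pool.Agent.Lib.MP_240d5c_lc.Cat

set_option linter.unusedSectionVars false
set_option linter.unusedVariables false

namespace Pool.Agent.CPr

open Pool.Agent.KM Filter Topology

theorem Cat.mono_set {q : List Bool} {S T : Set Cs} (h : Cat q S) (hST : S ⊆ T) : Cat q T :=
  Filter.Eventually.mono h fun _ hc hq => hST (hc hq)

theorem Cat.mono {q q' : List Bool} {S : Set Cs} (h : Cat q S) (hq : q <:+ q') : Cat q' S :=
  Filter.Eventually.mono h fun _ hc hq' => hc (cyl_anti hq hq')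

theorem Cat.inter {q : List Bool} {S T : Set Cs} (h : Cat q S) (h' : Cat q T) :
    Cat q (S ∩ T) :=
  Filter.Eventually.mp h (Filter.Eventually.mono h' fun _ hc' hc hq => ⟨hc hq, hc' hq⟩)

theorem Cat.iInter {ι : Type*} [Countable ι] {q : List Bool} {S : ι → Set Cs}
    (h : ∀ i, Cat q (S i)) : Cat q (⋂ i, S i) :=
  Filter.Eventually.mono (eventually_countable_forall.2 h) fun _ hc hq =>
    Set.mem_iInter.2 fun i => hc i hq

/-- Baire category theorem. -/
theorem Cat.nonempty {q : List Bool} {S : Set Cs} (h : Cat q S) : ∃ c ∈ cyl q, c ∈ S := by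
  have hd : Dense {c : Cs | c ∈ cyl q → c ∈ S} := dense_of_mem_residual h
  obtain ⟨c, hc, hc'⟩ := hd.inter_open_nonempty _ (isOpen_cyl q) (cyl_nonempty q)
  exact ⟨c, hc, hc' hc⟩

/-- A Borel set is comeager below `q`, or its complement is comeager below an extension of `q`.
Hint: `MeasurableSet.residualEq_isOpen` for the complement. -/
theorem Cat.dec {S : Set Cs} (hS : MeasurableSet S) (q : List Bool) :
    Cat q S ∨ ∃ q', q <:+ q' ∧ Cat q' Sᶜ := by
  obtain ⟨U, hU, hSU⟩ := hS.compl.residualEq_isOpen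
  by_cases hne : ∃ c, c ∈ cyl q ∧ c ∈ U
  · obtain ⟨c, hcq, hcU⟩ := hne
    obtain ⟨q', hqq, hc', hsub⟩ := exists_cyl_subset' hU hcU hcq
    refine Or.inr ⟨q', hqq, ?_⟩
    filter_upwards [hSU.mem_iff] with x hx hxq
    exact hx.2 (hsub hxq)
  · refine Or.inl ?_
    filter_upwards [hSU.mem_iff] with x hx hxq
    by_contra hxS
    exact hne ⟨x, hxq, hx.1 hxS⟩

/-- If a countable union of Borel sets is comeager below `q`, then one of the sets is comeager below
an extension of `q`. -/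
theorem Cat.union {S : ℕ → Set Cs} (hS : ∀ n, MeasurableSet (S n)) {q : List Bool}
    (h : Cat q (⋃ n, S n)) : ∃ n q', q <:+ q' ∧ Cat q' (S n) := by
  by_contra hne
  have h1 : ∀ n, Cat q (S n)ᶜ := by
    intro n
    rcases Cat.dec (hS n).compl q with h2 | ⟨q', hq', h2⟩
    · exact h2
    · rw [compl_compl] at h2
      exact absurd ⟨n, q', hq', h2⟩ hne
  obtain ⟨c, _, hc1, hc2⟩ := (h.inter (Cat.iInter h1)).nonempty
  obtain ⟨n, hn⟩ := Set.mem_iUnion.1 hc1
  exact Set.mem_iInter.1 hc2 n hn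

theorem of_dense_isClosed_cyl (q : List Bool) : IsClosed (cyl q) := by
  rw [← isOpen_compl_iff]
  have h : (cyl q)ᶜ = ⋃ c ∈ (cyl q)ᶜ, cyl (path c q.length) := by
    ext c
    constructor
    · intro hc
      exact Set.mem_biUnion hc (mem_cyl_path c q.length)
    · intro hc
      obtain ⟨c', hc', h'⟩ := Set.mem_iUnion₂.1 hc
      intro hcq
      apply hc'
      have h1 : path c (path c' q.length).length = path c' q.length := h'
      rw [path_len] at h1
      have h2 : path c q.length = q := hcq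
      show path c' q.length = q
      rw [← h1, h2]
  rw [h]
  exact isOpen_biUnion fun c _ => isOpen_cyl _

/-- A set of conditions dense below `q` is met by comeager many elements of `cyl q`. -/
theorem Cat.of_dense {Q : Set (List Bool)} {q : List Bool}
    (h : ∀ q', q <:+ q' → ∃ q'', q' <:+ q'' ∧ q'' ∈ Q) : Cat q {c | ∃ q' ∈ Q, c ∈ cyl q'} := by
  have hO : IsOpen ((cyl q)ᶜ ∪ ⋃ q' ∈ Q, cyl q') :=
    (of_dense_isClosed_cyl q).isOpen_compl.union (isOpen_biUnion fun q' _ => isOpen_cyl q')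
  have hD : Dense ((cyl q)ᶜ ∪ ⋃ q' ∈ Q, cyl q') := by
    rw [dense_iff_inter_open]
    intro U hU hne
    obtain ⟨c, hc⟩ := hne
    by_cases hcq : c ∈ cyl q
    · obtain ⟨q₁, hq₁, _, hsub⟩ := exists_cyl_subset' hU hc hcq
      obtain ⟨q₂, hq₂, hQ⟩ := h q₁ hq₁
      obtain ⟨d, hd⟩ := cyl_nonempty q₂
      exact ⟨d, hsub (cyl_anti hq₂ hd), Or.inr (Set.mem_biUnion hQ hd)⟩
    · exact ⟨c, hc, Or.inl hcq⟩
  refine Filter.mem_of_superset (residual_of_dense_open hO hD) ?_
  intro c hc hcq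
  rcases hc with hc | hc
  · exact absurd hcq hc
  · obtain ⟨q', hq', h'⟩ := Set.mem_iUnion₂.1 hc
    exact ⟨q', hq', h'⟩

end Pool.Agent.CPr
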