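import Pool.Agent.Lib.MP_240d5c_lc.ForceCH

set_option linter.unusedSectionVars false
set_option linter.unusedVariables false

/-!
# The Cohen filtration principle

Conditions of Cohen forcing are the finite 0-1 sequences `s : List Bool`, written with the latest
digit first; `t` extends `s` if `s <:+ t`.  The first `m` digits of `c : ℕ → Bool` are
`path c m` (`path c (m+1) = c m :: path c m`).  Reals are the elements of `ℕ → ℕ`.
-/

namespace Pool.Agent.CPr

open Cardinal Order Pool.Agent.KM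

/-! ## The principle -/

/-- The real `f` as a table: `val f s n = k + 1` says that the condition `s` gives to the `n`-th
value of the real named by `f` the value `k`; `val f s n = 0` says that it does not decide it. -/
def val (f : ℕ → ℕ) (s : List Bool) (n : ℕ) : ℕ := f (Encodable.encode (s, n))

/-- `f` is a Cohen name of a real: stronger conditions give the same values, and every value is
decided by densely many conditions. -/
def IsName (f : ℕ → ℕ) : Prop :=
  (∀ s t n, s <:+ t → val f s n ≠ 0 → val f t n = val f s n) ∧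
  ∀ s n, ∃ t, s <:+ t ∧ val f t n ≠ 0

/-- The name `f` evaluated at the Cohen real `c` is the real `y`. -/
def Eval (f : ℕ → ℕ) (c : ℕ → Bool) (y : ℕ → ℕ) : Prop :=
  ∀ n, ∃ m, val f (path c m) n = y n + 1

/-- The real `d` codes a dense set of conditions, the set of all `s` with `d (encode s) ≠ 0`. -/
def DenseCode (d : ℕ → ℕ) : Prop := ∀ s : List Bool, ∃ t, s <:+ t ∧ d (Encodable.encode t) ≠ 0

/-- `c` is Cohen generic over the set `N` of reals: it meets all dense sets coded in `N`. -/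
def CohenOver (N : Set (ℕ → ℕ)) (c : ℕ → Bool) : Prop :=
  ∀ d ∈ N, DenseCode d → ∃ m, d (Encodable.encode (path c m)) ≠ 0

/-- `α` is not the supremum of countably many smaller elements. -/
def UncCof {Ω : Type} [LinearOrder Ω] (α : Ω) : Prop :=
  ∀ g : ℕ → Ω, ∃ β, β < α ∧ ∀ n, g n < α → g n < β

/-- The Cohen filtration principle: the reals are enumerated by `Ω₂ × Ω₁`, for well-orders `Ω₁`
(uncountable, with countable initial segments) and `Ω₂` (in which all subsets of size `≤ |Ω₁|` are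
bounded, and whose initial segments have size `≤ |Ω₁|`), such that for each `α : Ω₂` which is not
the supremum of countably many smaller elements, every real is the value of a Cohen name with index
below `α` at a Cohen real over the set of all reals with index below `α`. -/
structure IsCohenFiltration (Ω₁ Ω₂ : Type) [LinearOrder Ω₁] [LinearOrder Ω₂]
    (e : Ω₂ × Ω₁ → ℕ → ℕ) : Prop where
  seg₁ : ∀ ξ : Ω₁, ∃ g : ℕ → Ω₁, ∀ η < ξ, ∃ n, g n = η
  unc₁ : ∀ g : ℕ → Ω₁, ∃ ξ, ∀ n, g n ≠ ξ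
  seg₂ : ∀ α : Ω₂, ∃ g : Ω₁ → Ω₂, ∀ β < α, ∃ ξ, g ξ = β
  unc₂ : ∀ g : Ω₁ → Ω₂, ∃ β, ∀ ξ, g ξ < β
  onto : ∀ x : ℕ → ℕ, ∃ i, e i = x
  cohen : ∀ α : Ω₂, UncCof α → ∀ y : ℕ → ℕ, ∃ i : Ω₂ × Ω₁, i.1 < α ∧ ∃ c : ℕ → Bool,
    IsName (e i) ∧ Eval (e i) c y ∧ CohenOver {x | ∃ j : Ω₂ × Ω₁, j.1 < α ∧ e j = x} c

/-- There is a Cohen filtration of the reals. -/
def CohenPrinciple : Prop :=
  ∃ (Ω₁ Ω₂ : Type) (_ : LinearOrder Ω₁) (_ : LinearOrder Ω₂) (_ : WellFoundedLT Ω₁)
    (_ : WellFoundedLT Ω₂) (e : Ω₂ × Ω₁ → ℕ → ℕ), IsCohenFiltration Ω₁ Ω₂ e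

/-! ## The forcing translation -/

section Forcing

variable {P : Type} [Preorder P]

/-- `p ⊩ val f s n = v` -/
def fVal (f : FunName P ℕ ℕ) (s : List Bool) (n v : ℕ) : P → Prop :=
  f.app (Encodable.encode (s, n)) v

/-- `p ⊩ f is a Cohen name of a real` -/
def fIsName (f : FunName P ℕ ℕ) : P → Prop :=
  fAnd
    (fAll fun st : List Bool × List Bool => fAll fun n : ℕ => fImp (fFact (st.1 <:+ st.2))
      (fAll fun v : ℕ => fImp (fFact (v ≠ 0)) (fImp (fVal f st.1 n v) (fVal f st.2 n v))))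
    (fAll fun s : List Bool => fAll fun n : ℕ => fEx fun t : List Bool =>
      fAnd (fFact (s <:+ t)) (fEx fun v : ℕ => fAnd (fFact (v ≠ 0)) (fVal f t n v)))

/-- `p ⊩ s is the sequence of the first digits of c` -/
def fPath (c : FunName P ℕ Bool) : List Bool → P → Prop
  | [] => fFact True
  | i :: s => fAnd (c.app s.length i) (fPath c s)

/-- `p ⊩ the name f evaluated at c is y` -/
def fEval (f : FunName P ℕ ℕ) (c : FunName P ℕ Bool) (y : FunName P ℕ ℕ) : P → Prop :=
  fAll fun n : ℕ => fEx fun s : List Bool => fAnd (fPath c s)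
    (fEx fun v : ℕ => fAnd (y.app n v) (fVal f s n (v + 1)))

/-- `p ⊩ d codes a dense set of conditions` -/
def fDenseCode (d : FunName P ℕ ℕ) : P → Prop :=
  fAll fun s : List Bool => fEx fun t : List Bool =>
    fAnd (fFact (s <:+ t)) (fEx fun v : ℕ => fAnd (fFact (v ≠ 0)) (d.app (Encodable.encode t) v))

/-- The name of the real `e i`, for a name `e` of a family of reals. -/
def rowName {I : Type} (e : FunName P (I × ℕ) ℕ) (i : I) : FunName P ℕ ℕ where
  app n a := e.app (i, n) a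
  reg _ _ := e.reg _ _
  sv _ _ _ _ h h' := e.sv _ _ _ _ h h'
  tot _ p := e.tot _ p

variable {Ω₁ Ω₂ : Type} [LinearOrder Ω₁] [LinearOrder Ω₂]

/-- `p ⊩ c is Cohen generic over the reals with index below α` -/
def fCohenOver (e : FunName P ((Ω₂ × Ω₁) × ℕ) ℕ) (α : Ω₂) (c : FunName P ℕ Bool) : P → Prop :=
  fAll fun j : Ω₂ × Ω₁ => fImp (fFact (j.1 < α)) (fImp (fDenseCode (rowName e j))
    (fEx fun s : List Bool => fAnd (fPath c s)
      (fEx fun v : ℕ => fAnd (fFact (v ≠ 0)) (e.app (j, Encodable.encode s) v))))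

/-- `p ⊩ α is not the supremum of countably many smaller elements` -/
def fUncCof (α : Ω₂) : P → Prop :=
  fAll fun g : FunName P ℕ Ω₂ => fEx fun β : Ω₂ => fAnd (fFact (β < α))
    (fAll fun n : ℕ => fAll fun γ : Ω₂ => fImp (fAnd (g.app n γ) (fFact (γ < α))) (fFact (γ < β)))

/-- `p ⊩ e is a Cohen filtration of the reals` -/
def fIsCohenFiltration (e : FunName P ((Ω₂ × Ω₁) × ℕ) ℕ) : P → Prop :=
  fAnd (fAll fun ξ : Ω₁ => fEx fun g : FunName P ℕ Ω₁ => fAll fun η : Ω₁ =>
      fImp (fFact (η < ξ)) (fEx fun n : ℕ => g.app n η)) <|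
  fAnd (fAll fun g : FunName P ℕ Ω₁ => fEx fun ξ : Ω₁ => fAll fun n : ℕ => fNot (g.app n ξ)) <|
  fAnd (fAll fun α : Ω₂ => fEx fun g : FunName P Ω₁ Ω₂ => fAll fun β : Ω₂ =>
      fImp (fFact (β < α)) (fEx fun ξ : Ω₁ => g.app ξ β)) <|
  fAnd (fAll fun g : FunName P Ω₁ Ω₂ => fEx fun β : Ω₂ => fAll fun ξ : Ω₁ => fAll fun γ : Ω₂ =>
      fImp (g.app ξ γ) (fFact (γ < β))) <|
  fAnd (fAll fun x : FunName P ℕ ℕ => fEx fun i : Ω₂ × Ω₁ => fAll fun n : ℕ => fEx fun v : ℕ =>
      fAnd (e.app (i, n) v) (x.app n v)) <|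
  fAll fun α : Ω₂ => fImp (fUncCof α) (fAll fun y : FunName P ℕ ℕ => fEx fun i : Ω₂ × Ω₁ =>
    fAnd (fFact (i.1 < α)) (fEx fun c : FunName P ℕ Bool =>
      fAnd (fIsName (rowName e i)) (fAnd (fEval (rowName e i) c y) (fCohenOver e α c))))

/-- `p ⊩ there is a Cohen filtration of the reals`, with index sets the ground model well-orders
`Ω₁` and `Ω₂`. -/
def fCohenPrinciple (P Ω₁ Ω₂ : Type) [Preorder P] [LinearOrder Ω₁] [LinearOrder Ω₂] : P → Prop :=
  fEx fun e : FunName P ((Ω₂ × Ω₁) × ℕ) ℕ => fIsCohenFiltration e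

end Forcing

/-! ## Maximal chains of projections in the Calkin algebra -/

/-- For every separable infinite-dimensional complex Hilbert space, any two maximal chains of
projections in the Calkin algebra are order-isomorphic.  (Elements of the Calkin algebra are
classes of operators modulo compact operators; this is the right-hand side of the frozen statement
of the problem.) -/
def AllMaximalChainsIso : Prop :=
  ∀ (H : Type) [NormedAddCommGroup H] [InnerProductSpace ℂ H] [CompleteSpace H]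
    [TopologicalSpace.SeparableSpace H], ¬ FiniteDimensional ℂ H →
  ∀ (P : Set (Set (H →L[ℂ] H))),
    P = {A | ∃ T : H →L[ℂ] H,
      IsCompactOperator ⇑(star T - T : H →L[ℂ] H) ∧
      IsCompactOperator ⇑(T * T - T : H →L[ℂ] H) ∧
      A = {S | IsCompactOperator ⇑(S - T : H →L[ℂ] H)}} →
  ∀ (R : Set (H →L[ℂ] H) → Set (H →L[ℂ] H) → Prop),
    R = (fun A B => ∃ T ∈ A, ∃ S ∈ B,
      IsCompactOperator ⇑(T * S - T : H →L[ℂ] H)) →
  ∀ C D : Set (Set (H →L[ℂ] H)),
    (C ⊆ P ∧ IsChain R C ∧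
      ∀ C' : Set (Set (H →L[ℂ] H)),
        C' ⊆ P → IsChain R C' → C ⊆ C' → C' = C) →
    (D ⊆ P ∧ IsChain R D ∧
      ∀ D' : Set (Set (H →L[ℂ] H)),
        D' ⊆ P → IsChain R D' → D ⊆ D' → D' = D) →
    ∃ f : C ≃ D, ∀ a b : C, R a.1 b.1 ↔ R (f a).1 (f b).1

end Pool.Agent.CPr
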