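import Pool.Agent.Lib.MP_240d5c_lc.Cat2

set_option linter.unusedSectionVars false
set_option linter.unusedVariables false

/-!
# Evaluation of Cohen names
-/

namespace Pool.Agent.CPr

open Pool.Agent.KM Filter Topology

open Classical in
/-- The value of the name `f` at `c` (with the value `0` where it is not decided). -/
noncomputable def ev (f : ℕ → ℕ) (c : Cs) : ℕ → ℕ := fun n =>
  if h : ∃ m, val f (path c m) n ≠ 0 then val f (path c (Nat.find h)) n - 1 else 0

/-- The set of all `c` at which every value of `f` is decided. -/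
def tot (f : ℕ → ℕ) : Set Cs := {c | ∀ n, ∃ m, val f (path c m) n ≠ 0}

theorem ev_eq {f : ℕ → ℕ} (hf : IsName f) {c : Cs} {y : ℕ → ℕ} (h : Eval f c y) : ev f c = y := by
  classical
  funext n
  obtain ⟨m, hm⟩ := h n
  have hex : ∃ m, val f (path c m) n ≠ 0 := ⟨m, by rw [hm]; omega⟩
  have h1 : ev f c n = val f (path c (Nat.find hex)) n - 1 := by
    unfold ev
    rw [dif_pos hex]
  have h2 : Nat.find hex ≤ m := Nat.find_min' hex (by rw [hm]; omega)
  have h3 := hf.1 (path c (Nat.find hex)) (path c m) n (path_suffix c h2) (Nat.find_spec hex)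
  rw [h1, ← h3, hm]
  omega

theorem measurable_ev_isOpen (p : List Bool → Prop) (m : ℕ) : IsOpen {c : Cs | p (path c m)} := by
  have h : {c : Cs | p (path c m)} = ⋃ c ∈ {c : Cs | p (path c m)}, cyl (path c m) := by
    ext c
    constructor
    · intro hc
      exact Set.mem_biUnion hc (mem_cyl_path c m)
    · intro hc
      obtain ⟨c', hc', h'⟩ := Set.mem_iUnion₂.1 hc
      have h1 : path c (path c' m).length = path c' m := h'
      rw [path_len] at h1
      show p (path c m)
      rw [h1]
      exact hc'
  rw [h]
  exact isOpen_biUnion fun c _ => isOpen_cyl _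

theorem measurable_ev (f : ℕ → ℕ) : Measurable (ev f) := by
  classical
  refine measurable_pi_iff.2 fun n => ?_
  refine measurable_to_countable' fun k => ?_
  have hA : ∀ (p : List Bool → Prop) (m : ℕ), MeasurableSet {c : Cs | p (path c m)} :=
    fun p m => (measurable_ev_isOpen p m).measurableSet
  have hset : (fun c => ev f c n) ⁻¹' {k} =
      (⋃ m, ({c : Cs | val f (path c m) n ≠ 0 ∧ val f (path c m) n - 1 = k} ∩
        ⋂ m' ∈ {m' | m' < m}, {c : Cs | val f (path c m') n = 0})) ∪
      ((⋂ m, {c : Cs | val f (path c m) n = 0}) ∩ {c : Cs | k = 0}) := by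
    ext c
    by_cases hex : ∃ m, val f (path c m) n ≠ 0
    · have h1 : ev f c n = val f (path c (Nat.find hex)) n - 1 := by
        unfold ev
        rw [dif_pos hex]
      constructor
      · intro hc
        have hc' : ev f c n = k := hc
        refine Or.inl (Set.mem_iUnion.2 ⟨Nat.find hex, ⟨Nat.find_spec hex, ?_⟩, ?_⟩)
        · rw [← h1]
          exact hc'
        · refine Set.mem_iInter₂.2 fun m' hm' => ?_
          have h2 := Nat.find_min hex hm'
          exact not_not.1 h2
      · rintro (hc | hc)
        · obtain ⟨m, ⟨h2, h3⟩, h4⟩ := Set.mem_iUnion.1 hc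
          have h5 : Nat.find hex = m := by
            refine le_antisymm (Nat.find_min' hex h2) ?_
            by_contra hlt
            have h6 := Set.mem_iInter₂.1 h4 (Nat.find hex) (not_le.1 hlt)
            exact Nat.find_spec hex h6
          show ev f c n = k
          rw [h1, h5]
          exact h3
        · obtain ⟨m, hm⟩ := hex
          exact absurd (Set.mem_iInter.1 hc.1 m) hm
    · have h1 : ev f c n = 0 := by
        unfold ev
        rw [dif_neg hex]
      have h2 : ∀ m, val f (path c m) n = 0 := by
        intro m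
        by_contra hm
        exact hex ⟨m, hm⟩
      constructor
      · intro hc
        have hc' : ev f c n = k := hc
        exact Or.inr ⟨Set.mem_iInter.2 h2, by show k = 0; rw [← hc', h1]⟩
      · rintro (hc | hc)
        · obtain ⟨m, ⟨h3, _⟩, _⟩ := Set.mem_iUnion.1 hc
          exact absurd (h2 m) h3
        · show ev f c n = k
          rw [h1]
          exact (show k = 0 from hc.2).symm
  rw [hset]
  refine MeasurableSet.union (MeasurableSet.iUnion fun m => MeasurableSet.inter ?_ ?_)
    (MeasurableSet.inter (MeasurableSet.iInter fun m => hA (fun s => val f s n = 0) m)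
      (MeasurableSet.const _))
  · exact hA (fun s => val f s n ≠ 0 ∧ val f s n - 1 = k) m
  · exact MeasurableSet.biInter (Set.to_countable _) fun m' _ => hA (fun s => val f s n = 0) m'

theorem cat_tot {f : ℕ → ℕ} (hf : IsName f) (q : List Bool) : Cat q (tot f) := by
  have h : ∀ n : ℕ, Cat q {c | ∃ q' ∈ {s : List Bool | val f s n ≠ 0}, c ∈ cyl q'} := by
    intro n
    refine Cat.of_dense fun q' _ => ?_
    obtain ⟨t, ht, ht'⟩ := hf.2 q' n
    exact ⟨t, ht, ht'⟩
  refine (Cat.iInter h).mono_set ?_
  intro c hc n
  obtain ⟨q', hq', hcq⟩ := Set.mem_iInter.1 hc n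
  refine ⟨q'.length, ?_⟩
  have e : path c q'.length = q' := hcq
  rw [e]
  exact hq'

/-- If `K` is closed and `ev f c ∈ K` for comeager many `c ∈ cyl q`, then for all `c ∈ cyl q` at
which `f` is total.  (`ev f` restricted to `tot f` is continuous, and a comeager set is dense.) -/
theorem closed_trick {f : ℕ → ℕ} (hf : IsName f) {K : Set (ℕ → ℕ)} (hK : IsClosed K)
    {q : List Bool} (h : Cat q {c | ev f c ∈ K}) : ∀ c ∈ cyl q, c ∈ tot f → ev f c ∈ K := by
  classical
  intro c hcq hct
  by_contra hne
  obtain ⟨I, u, hu, hsub⟩ := isOpen_pi_iff.1 hK.isOpen_compl (ev f c) hne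
  choose m hm using hct
  let M : ℕ := max q.length (I.sup m)
  have hqM : q <:+ path c M := by
    have e : path c q.length = q := hcq
    have := path_suffix c (le_max_left q.length (I.sup m))
    rwa [e] at this
  obtain ⟨c', hc', hcK⟩ := (h.mono hqM).nonempty
  refine hsub ?_ hcK
  intro n hn
  have hmn : m n ≤ M := (Finset.le_sup (f := m) hn).trans (le_max_right _ _)
  have e : path c' M = path c M := by
    have e1 : path c' (path c M).length = path c M := hc'
    rwa [path_len] at e1
  have key : ∀ b : Cs, path b M = path c M → ev f b n = val f (path c M) n - 1 := by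
    intro b hb
    have hvM : val f (path c M) n ≠ 0 := by
      rw [hf.1 _ _ n (path_suffix c hmn) (hm n)]
      exact hm n
    have hex : ∃ k, val f (path b k) n ≠ 0 := ⟨M, by rw [hb]; exact hvM⟩
    have hfind : Nat.find hex ≤ M := Nat.find_min' hex (by rw [hb]; exact hvM)
    have h1 := hf.1 _ _ n (path_suffix b hfind) (Nat.find_spec hex)
    rw [hb] at h1
    have h2 : ev f b n = val f (path b (Nat.find hex)) n - 1 := by
      unfold ev
      rw [dif_pos hex]
    rw [h2, h1]
  have e3 : ev f c' n = ev f c n := by rw [key c' e, key c rfl]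
  rw [e3]
  exact (hu n hn).2

end Pool.Agent.CPr
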