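import Pool.Agent.Lib.MP_8c1a1d_lc.Cantor

set_option linter.unusedSectionVars false
set_option linter.unusedVariables false

/-!
# The collapse of the continuum to `ℵ₁` forces the continuum hypothesis
-/

namespace Pool.Agent.CPr

open Cardinal Order Pool.Agent.KM

/-- `p ⊩ every real is one of the reals e(ξ), ξ ∈ Ω, for some sequence e of reals`.  If `Ω` is a
well-order of type `ω₁` in the ground model (so that its initial segments are countable), this says
that the continuum hypothesis holds in the extension. -/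
def fCH (P : Type) [Preorder P] (Ω : Type) : P → Prop :=
  fEx fun e : FunName P (Ω × ℕ) Bool => fAll fun x : FunName P ℕ Bool => fEx fun ξ : Ω =>
    fAll fun n : ℕ => fEx fun b : Bool => fAnd (x.app n b) (e.app (ξ, n) b)

theorem Fn.isOmegaClosed {E A : Type} : IsOmegaClosed (Fn ℵ₁ E A) := by
  intro f hf
  have hmono : ∀ m n, m ≤ n → f n ≤ f m := by
    intro m n hmn
    induction n, hmn using Nat.le_induction with
    | base => exact le_rfl
    | succ n _ ih => exact (hf n).trans ih
  obtain ⟨q, hq, _⟩ := Fn.exists_inf Cardinal.isRegular_aleph_one (I := ℕ) (by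
    rw [Cardinal.mk_nat]; exact Cardinal.aleph0_lt_aleph_one) f (fun m n => by
      rcases le_total m n with h | h
      · right; exact hmono _ _ h
      · left; exact hmono _ _ h)
  exact ⟨q, hq⟩

/-- The countable partial functions from an uncountable set to the reals force the continuum
hypothesis. -/
theorem fCH_collapse {Ω : Type} (hΩ : ℵ₀ < #Ω) (p : Fn ℵ₁ Ω (ℕ → Bool)) :
    fCH (Fn ℵ₁ Ω (ℕ → Bool)) Ω p := by
  classical
  have hθ : (ℵ₀ : Cardinal.{0}) ≤ ℵ₁ := Cardinal.aleph0_lt_aleph_one.le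
  -- extend a condition at a free place
  have hins : ∀ (q : Fn ℵ₁ Ω (ℕ → Bool)) (ξ : Ω) (r : ℕ → Bool), q.f ξ = none →
      ∃ q' ≤ q, q'.f ξ = some r := by
    intro q ξ r hq
    obtain ⟨q', h1, h2, _⟩ := Fn.exists_insert hθ q ξ r hq
    exact ⟨q', h1, h2⟩
  have hfree : ∀ q : Fn ℵ₁ Ω (ℕ → Bool), ∃ ξ, q.f ξ = none := by
    intro q
    by_contra hcon
    push Not at hcon
    have h1 : #{e // q.f e ≠ none} = #Ω := by
      have : {e | q.f e ≠ none} = Set.univ := Set.eq_univ_of_forall hcon
      change #({e | q.f e ≠ none} : Set Ω) = #Ω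
      rw [this, Cardinal.mk_univ]
    have h2 := q.small
    rw [h1] at h2
    exact absurd hΩ (not_lt.2 (Cardinal.lt_aleph_one_iff.1 h2))
  let e : FunName (Fn ℵ₁ Ω (ℕ → Bool)) (Ω × ℕ) Bool :=
    { app := fun a b q => ∃ r, q.f a.1 = some r ∧ r a.2 = b
      reg := by
        rintro ⟨ξ, n⟩ b
        refine ⟨fun q q' hq' ⟨r, h1, h2⟩ => ⟨r, hq' _ _ h1, h2⟩, fun q hd => ?_⟩
        cases hc : q.f ξ with
        | none =>
          obtain ⟨q', hq', h⟩ := hins q ξ (fun _ => !b) hc
          obtain ⟨q'', hq'', r, h1, h2⟩ := hd q' hq'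
          have := hq'' _ _ h
          rw [this] at h1
          cases h1
          simp at h2
        | some r =>
          obtain ⟨q', hq', r', h1, h2⟩ := hd q le_rfl
          have := hq' _ _ hc
          rw [this] at h1
          cases h1
          exact ⟨r, hc, h2⟩
      sv := by
        rintro ⟨ξ, n⟩ b c q ⟨r, h1, h2⟩ ⟨r', h1', h2'⟩
        rw [h1] at h1'
        cases h1'
        rw [← h2, ← h2']
      tot := by
        rintro ⟨ξ, n⟩ q
        cases hc : q.f ξ with
        | none =>
          obtain ⟨q', hq', h⟩ := hins q ξ (fun _ => true) hc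
          exact ⟨q', hq', true, fun _ => true, h, rfl⟩
        | some r => exact ⟨q, le_rfl, r n, r, hc, rfl⟩ }
  refine fEx_intro (fun e' => (reg_fAll fun _ => reg_fEx).pers) e ?_
  intro x
  intro q _
  -- decide the real `x`
  obtain ⟨q', hq', hdec⟩ := (Fn.isOmegaClosed).distrib (fun n b q => x.app n b q)
    (fun n b p q hq h => (x.reg _ _).mono hq h) q (fun n p _ => x.tot n p)
  choose r hr using hdec
  obtain ⟨ξ, hξ⟩ := hfree q'
  obtain ⟨q'', hq'', h⟩ := hins q' ξ r hξ
  refine ⟨q'', hq''.trans hq', ξ, fun n => ?_⟩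
  exact fEx_intro (fun b => (reg_fAnd (x.reg _ _) (e.reg _ _)).pers) (r n)
    ⟨(x.reg _ _).mono hq'' (hr n), r, h, rfl⟩

end Pool.Agent.CPr
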