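import Pool.Agent.Lib.MP_240d5c_lc.Mg.G001

set_option linter.unusedSectionVars false
set_option linter.unusedVariables false

/-!
# Adding `ℵ₂` Cohen reals to a model of CH forces the Cohen filtration principle
-/

namespace Pool.Agent.CPr

open Cardinal Order Pool.Agent.KM

theorem SPers.mono_set {E : Type} {J J' : Set E} (h : J ⊆ J') {φ : Fn ℵ₀ E Bool → Prop}
    (hφ : SPers J φ) : SPers J' φ :=
  fun p q hq hp => hφ p q (fun e he => hq e (h he)) hp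

/-- an injective enumeration of coordinates off `J` containing `K \ J` -/
theorem exists_enum_off {Ω₂ : Type} [LinearOrder Ω₂] [WellFoundedLT Ω₂]
    (h₂ : Ordinal.type (fun a b : Ω₂ => a < b) = (ℵ_ 2).ord) (α : Ω₂) (K : Set Ω₂)
    (hK : K.Countable) :
    ∃ k : ℕ → Ω₂, Function.Injective k ∧ (∀ i, k i ∉ Set.Iio α) ∧ K ⊆ Set.Iio α ∪ Set.range k := by
  have hinf : (Set.Ici α).Infinite := by
    intro hfin
    have h1 : #(Set.Iio α) < ℵ_ 2 := card_Iio_lt h₂ α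
    have h2 : #(Set.Ici α) < ℵ₀ := hfin.lt_aleph0
    have h3 : (Set.univ : Set Ω₂) ⊆ Set.Iio α ∪ Set.Ici α := fun x _ => lt_or_ge x α
    have h4 := (Cardinal.mk_le_mk_of_subset h3).trans (Cardinal.mk_union_le _ _)
    rw [Cardinal.mk_univ, card_of_type h₂] at h4
    have h5 : (ℵ₀ : Cardinal.{0}) ≤ ℵ_ 2 := Cardinal.aleph0_le_aleph 2
    exact absurd h4 (not_le.2 (Cardinal.add_lt_of_lt h5 h1 (h2.trans_le h5)))
  have : Infinite (Set.Ici α) := hinf.to_subtype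
  let N : Set Ω₂ := (fun x : Set.Ici α => (x : Ω₂)) '' (Set.range (Infinite.natEmbedding (Set.Ici α)))
  have hN1 : N ⊆ Set.Ici α := by
    rintro _ ⟨x, _, rfl⟩
    exact x.2
  have hN2 : N.Infinite := by
    refine Set.Infinite.image (Subtype.val_injective.injOn) ?_
    exact Set.infinite_range_of_injective (Infinite.natEmbedding (Set.Ici α)).injective
  have hN3 : N.Countable := (Set.countable_range _).image _
  let S : Set Ω₂ := (K ∩ Set.Ici α) ∪ N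
  have hS1 : S.Countable := (hK.mono Set.inter_subset_left).union hN3
  have hS2 : S.Infinite := hN2.mono Set.subset_union_right
  have hS3 : S ⊆ Set.Ici α := Set.union_subset Set.inter_subset_right hN1
  haveI : Countable S := hS1.to_subtype
  haveI : Infinite S := hS2.to_subtype
  obtain ⟨eqv⟩ : Nonempty (ℕ ≃ S) := nonempty_equiv_of_countable
  refine ⟨fun i => (eqv i : Ω₂), fun i j h => eqv.injective (Subtype.ext h), ?_, ?_⟩
  · intro i hi
    have h1 : (eqv i : Ω₂) ∈ Set.Ici α := hS3 (eqv i).2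
    exact absurd (Set.mem_Iio.1 hi) (not_lt.2 h1)
  · intro x hx
    rcases lt_or_ge x α with h | h
    · exact Or.inl h
    · right
      refine ⟨eqv.symm ⟨x, Or.inl ⟨hx, h⟩⟩, ?_⟩
      simp

theorem fCohenPrinciple_cohen (hCH : Cardinal.continuum = ℵ₁) {Ω₁ Ω₂ : Type} [LinearOrder Ω₁]
    [WellFoundedLT Ω₁] [LinearOrder Ω₂] [WellFoundedLT Ω₂]
    (h₁ : Ordinal.type (fun a b : Ω₁ => a < b) = (ℵ₁).ord)
    (h₂ : Ordinal.type (fun a b : Ω₂ => a < b) = (ℵ_ 2).ord) (p : Fn ℵ₀ Ω₂ Bool) :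
    fCohenPrinciple (Fn ℵ₀ Ω₂ Bool) Ω₁ Ω₂ p := by
  classical
  have hreg2 : (ℵ_ 2 : Cardinal.{0}).IsRegular := by
    have := Cardinal.isRegular_aleph_succ 1
    have h : Order.succ (1 : Ordinal.{0}) = 2 := by
      rw [Ordinal.succ_one]
    rwa [h] at this
  have hlt12 : (ℵ₁ : Cardinal.{0}) < ℵ_ 2 := Cardinal.aleph_lt_aleph.2 (by norm_num)
  have c1 : #Ω₁ = ℵ₁ := card_of_type h₁
  have c2 : #Ω₂ = ℵ_ 2 := card_of_type h₂
  have hle1 : ∀ c : Cardinal.{0}, c < ℵ_ 2 → c ≤ ℵ₁ := by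
    intro c hc
    have h : (ℵ_ 2 : Cardinal.{0}) = Order.succ ℵ₁ := by
      rw [← Cardinal.aleph_succ, Ordinal.succ_one]
    rw [h] at hc
    exact Order.lt_succ_iff.1 hc
  have hJ : ∀ β : Ω₂, #(Set.Iio β) ≤ ℵ₁ := fun β => hle1 _ (card_Iio_lt h₂ β)
  haveI : Nonempty Ω₁ := by
    rw [← Cardinal.mk_ne_zero_iff, c1]
    exact (Cardinal.aleph_pos 1).ne'
  haveI : Nonempty Ω₂ := by
    rw [← Cardinal.mk_ne_zero_iff, c2]
    exact (Cardinal.aleph_pos 2).ne'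
  have hbound : ∀ K : Set Ω₂, K.Countable → ∃ β, ∀ x ∈ K, x < β := fun K hK =>
    exists_bound hreg2 h₂ K (hK.le_aleph0.trans_lt
      ((Cardinal.aleph0_lt_aleph_one).trans hlt12))
  choose G hG1 hG2 using fun β : Ω₂ => enum_names hCH (E := Ω₂) (Set.Iio β) (hJ β) c1
  let e : FunName (Fn ℵ₀ Ω₂ Bool) ((Ω₂ × Ω₁) × ℕ) ℕ :=
    { app := fun i a => (G i.1.1 i.1.2).app i.2 a
      reg := fun i a => (G i.1.1 i.1.2).reg i.2 a
      sv := fun i a b p => (G i.1.1 i.1.2).sv i.2 a b p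
      tot := fun i p => (G i.1.1 i.1.2).tot i.2 p }
  have hrow : ∀ i : Ω₂ × Ω₁, rowName e i = G i.1 i.2 := fun i => rfl
  intro p' hp'
  refine ⟨p', le_rfl, e, ?_, ?_, ?_, ?_, ?_, ?_⟩
  · -- seg₁
    intro ξ
    have hc : (Set.Iio ξ).Countable :=
      Cardinal.le_aleph0_iff_set_countable.1 (Cardinal.lt_aleph_one_iff.1 (card_Iio_lt h₁ ξ))
    obtain ⟨g, hg⟩ : ∃ g : ℕ → Ω₁, ∀ η ∈ Set.Iio ξ, ∃ n, g n = η := by
      obtain ⟨g, hg⟩ := (hc.insert ξ).exists_eq_range ⟨ξ, Set.mem_insert _ _⟩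
      refine ⟨g, fun η hη => ?_⟩
      have : η ∈ Set.range g := hg ▸ Set.mem_insert_of_mem _ hη
      exact this
    exact f_surj (Set.Iio ξ) g hg p'
  · exact f_unc (by rw [c1]; exact Cardinal.aleph0_lt_aleph_one) p'
  · -- seg₂
    intro α
    obtain ⟨g, hg⟩ : ∃ g : Ω₁ → Ω₂, ∀ β ∈ Set.Iio α, ∃ ξ, g ξ = β := by
      have h : #(Set.Iio α) ≤ #Ω₁ := by rw [c1]; exact hJ α
      obtain ⟨emb⟩ := h
      refine ⟨fun ξ => if h : ∃ x, emb x = ξ then (h.choose : Ω₂) else α, fun β hβ => ?_⟩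
      refine ⟨emb ⟨β, hβ⟩, ?_⟩
      have hex : ∃ x, emb x = emb ⟨β, hβ⟩ := ⟨_, rfl⟩
      have := emb.injective hex.choose_spec
      simp only [dif_pos hex]
      rw [this]
    exact f_surj (Set.Iio α) g hg p'
  · exact f_bdd c1 h₂ p'
  · -- onto
    intro x q hq
    obtain ⟨K, hK, hx⟩ := exists_countable_support x
    obtain ⟨β, hβ⟩ := hbound K hK
    obtain ⟨ξ, hξ⟩ := hG2 β x fun n a => SPers.mono_set (fun e he => hβ e he) (hx n a)
    refine ⟨q, le_rfl, (β, ξ), fun n r hr => ?_⟩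
    obtain ⟨s, hs, v, hv⟩ := x.tot n r
    refine ⟨s, hs, v, ?_, hv⟩
    show (G β ξ).app n v s
    rw [hξ]; exact hv
  · -- cohen
    intro α q hq hunc y q' hq'
    have hU : UncCof α := uncCof_of_forced hunc
    obtain ⟨K, hK, hy⟩ := exists_countable_support y
    obtain ⟨k, hk, hkJ, hKk⟩ := exists_enum_off h₂ α K hK
    have hy' : ∀ n a, SPers (Set.Iio α ∪ Set.range k) (y.app n a) := fun n a =>
      SPers.mono_set hKk (hy n a)
    obtain ⟨Kf, hKf, hf⟩ := exists_countable_support (codeName (Set.Iio α) hk y)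
    obtain ⟨g, hg⟩ : ∃ g : ℕ → Ω₂, Kf ⊆ Set.range g := by
      obtain ⟨x₀⟩ := (inferInstance : Nonempty Ω₂)
      obtain ⟨g, hg⟩ := (hKf.insert x₀).exists_eq_range ⟨x₀, Set.mem_insert _ _⟩
      exact ⟨g, hg ▸ Set.subset_insert _ _⟩
    obtain ⟨β, hβα, hβ⟩ := hU g
    have hsupp : Set.Iio α ∩ Kf ⊆ Set.Iio β := by
      rintro x ⟨hx, hxK⟩
      obtain ⟨n, rfl⟩ := hg hxK
      exact hβ n hx
    obtain ⟨ξ, hξ⟩ := hG2 β (codeName (Set.Iio α) hk y) fun n a =>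
      SPers.mono_set hsupp (spers_inter (codeName_spers _ hk y n a) (hf n a))
    refine ⟨q', le_rfl, (β, ξ), hβα, fun q'' hq'' => ⟨q'', le_rfl, cohenName k, ?_, ?_, ?_⟩⟩
    · rw [hrow, hξ]; exact codeName_isName hk hkJ hy' q''
    · rw [hrow, hξ]; exact codeName_eval hk hkJ hy' q''
    · intro j r hr hj
      exact cohenName_generic hk hkJ (fun n a => SPers.mono_set
        (fun x (hx : x < j.1) => hx.trans hj) (hG1 j.1 j.2 n a)) r

end Pool.Agent.CPr
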