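import Pool.Agent.Lib.MP_240d5c_lc.Mg.G004
import Pool.Agent.Lib.MP_240d5c_lc.Mg.G002

set_option linter.unusedSectionVars false
set_option linter.unusedVariables false

namespace Pool.Agent.CPr

open Filter Topology

variable {H : Type} [NormedAddCommGroup H] [InnerProductSpace ℂ H] [CompleteSpace H]
  [TopologicalSpace.SeparableSpace H]

/-- the class of an operator modulo compact operators -/
def cls (T : H →L[ℂ] H) : Set (H →L[ℂ] H) := {S | IsCompactOperator ⇑(S - T : H →L[ℂ] H)}

/-- the order of classes in the frozen statement, for classes of operators -/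
theorem rel_cls {a b : H →L[ℂ] H} :
    (∃ T ∈ cls a, ∃ S ∈ cls b, IsCompactOperator ⇑(T * S - T : H →L[ℂ] H)) ↔ ple a b := by
  constructor
  · rintro ⟨T, hT, S, hS, h⟩
    have hT' : IsCompactOperator ⇑(T - a : H →L[ℂ] H) := hT
    have hS' : IsCompactOperator ⇑(S - b : H →L[ℂ] H) := hS
    have e : a * b - a = (T * S - T) - (T - a) * S - a * (S - b) + (T - a) := by
      rw [sub_mul, mul_sub]
      abel
    unfold ple
    rw [e]
    exact ((h.sub (hT'.comp_clm S)).sub (hS'.clm_comp a)).add hT'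
  · intro h
    have h0 : ∀ c : H →L[ℂ] H, c ∈ cls c := by
      intro c
      have : c - c = 0 := sub_self c
      change IsCompactOperator ⇑(c - c : H →L[ℂ] H)
      rw [this]
      exact isCompactOperator_zero
    exact ⟨a, h0 a, b, h0 b, h⟩

theorem cls_eq_star {S : H →L[ℂ] H} (h : IsCompactOperator ⇑S) :
    IsCompactOperator ⇑(star S : H →L[ℂ] H) := by
  have h1 := (compact_iff S).1 h
  choose n hn using h1
  have h2 : ∀ k, IsCompactOperator ⇑(EE H (n k) * star S : H →L[ℂ] H) := by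
    intro k
    refine compact_of_finite ?_
    have hf := EE_fin H (n k)
    refine Submodule.finiteDimensional_of_le (S₂ := (EE H (n k)).range) ?_
    rintro _ ⟨x, rfl⟩
    exact ⟨star S x, rfl⟩
  have h3 : Tendsto (fun k => (EE H (n k) * star S : H →L[ℂ] H)) atTop (𝓝 (star S)) := by
    rw [tendsto_iff_norm_sub_tendsto_zero]
    refine squeeze_zero (fun _ => norm_nonneg _) (fun k => ?_)
      tendsto_one_div_add_atTop_nhds_zero_nat
    have e : EE H (n k) * star S - star S = - star (S * (1 - EE H (n k))) := by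
      rw [star_mul, star_sub, star_one, EE_star, sub_mul, one_mul]
      abel
    rw [e, norm_neg, norm_star]
    exact hn k
  exact isCompactOperator_of_tendsto h3 (Eventually.of_forall h2)

/-- classes of elements of `PD` are equal iff they are equivalent for the order
(`a b - a` and `b a - b` compact give, taking adjoints, `b a - a` and `a b - b` compact) -/
theorem cls_eq {a b : H →L[ℂ] H} (ha : a ∈ PD H) (hb : b ∈ PD H) :
    cls a = cls b ↔ ple a b ∧ ple b a := by
  constructor
  · intro h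
    have h1 : a ∈ cls b := by
      rw [← h]
      have : a - a = 0 := sub_self a
      change IsCompactOperator ⇑(a - a : H →L[ℂ] H)
      rw [this]
      exact isCompactOperator_zero
    have h1' : IsCompactOperator ⇑(a - b : H →L[ℂ] H) := h1
    constructor
    · have e : a * b - a = (a * a - a) - a * (a - b) := by rw [mul_sub]; abel
      unfold ple
      rw [e]
      exact ha.2.sub (h1'.clm_comp a)
    · have e : b * a - b = (b * b - b) + b * (a - b) := by rw [mul_sub]; abel
      unfold ple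
      rw [e]
      exact hb.2.add (h1'.clm_comp b)
  · rintro ⟨h, h'⟩
    have h1 := cls_eq_star h
    rw [star_sub, star_mul] at h1
    have hsa : IsCompactOperator ⇑(star a - a : H →L[ℂ] H) := ha.1
    have hsb : IsCompactOperator ⇑(star b - b : H →L[ℂ] H) := hb.1
    have h2 : IsCompactOperator ⇑(b * a - a : H →L[ℂ] H) := by
      have e : b * a - a = (star b * star a - star a) - (star b - b) * star a -
          b * (star a - a) + (star a - a) := by
        rw [sub_mul, mul_sub]
        abel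
      rw [e]
      exact ((h1.sub (hsb.comp_clm (star a))).sub (hsa.clm_comp b)).add hsa
    have h3 : IsCompactOperator ⇑(a - b : H →L[ℂ] H) := by
      have e : a - b = (b * a - b) - (b * a - a) := by abel
      rw [e]
      exact h'.sub h2
    ext S
    constructor
    · intro hS
      have hS' : IsCompactOperator ⇑(S - a : H →L[ℂ] H) := hS
      change IsCompactOperator ⇑(S - b : H →L[ℂ] H)
      have e : S - b = (S - a) + (a - b) := by abel
      rw [e]
      exact hS'.add h3
    · intro hS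
      have hS' : IsCompactOperator ⇑(S - b : H →L[ℂ] H) := hS
      change IsCompactOperator ⇑(S - a : H →L[ℂ] H)
      have e : S - a = (S - b) - (a - b) := by abel
      rw [e]
      exact hS'.sub h3

/-- A maximal chain of classes gives a maximal chain of the level order. -/
theorem isMax_of_classes {C : Set (Set (H →L[ℂ] H))}
    (h1 : C ⊆ {A | ∃ T : H →L[ℂ] H,
      IsCompactOperator ⇑(star T - T : H →L[ℂ] H) ∧
      IsCompactOperator ⇑(T * T - T : H →L[ℂ] H) ∧
      A = {S | IsCompactOperator ⇑(S - T : H →L[ℂ] H)}})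
    (h2 : IsChain (fun A B => ∃ T ∈ A, ∃ S ∈ B,
      IsCompactOperator ⇑(T * S - T : H →L[ℂ] H)) C)
    (h3 : ∀ C' : Set (Set (H →L[ℂ] H)), C' ⊆ {A | ∃ T : H →L[ℂ] H,
      IsCompactOperator ⇑(star T - T : H →L[ℂ] H) ∧
      IsCompactOperator ⇑(T * T - T : H →L[ℂ] H) ∧
      A = {S | IsCompactOperator ⇑(S - T : H →L[ℂ] H)}} →
      IsChain (fun A B => ∃ T ∈ A, ∃ S ∈ B,
        IsCompactOperator ⇑(T * S - T : H →L[ℂ] H)) C' → C ⊆ C' → C' = C) :
    (calkin H).IsMax {T | T ∈ PD H ∧ cls T ∈ C} := by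
  have hrep : ∀ A ∈ C, ∃ T ∈ PD H, A = cls T := by
    intro A hA
    obtain ⟨T, hT1, hT2, hT3⟩ := h1 hA
    exact ⟨T, ⟨hT1, hT2⟩, hT3⟩
  refine ⟨fun T hT => hT.1, ?_, ?_⟩
  · rintro a ⟨ha, haC⟩ b ⟨hb, hbC⟩
    by_cases hab : cls a = cls b
    · exact Or.inl ((cls_eq ha hb).1 hab).1
    · rcases h2 haC hbC hab with h | h
      · exact Or.inl (rel_cls.1 h)
      · exact Or.inr (rel_cls.1 h)
  · intro t ht hcomp
    refine ⟨ht, ?_⟩
    have hins := h3 (insert (cls t) C) ?_ ?_ (Set.subset_insert _ _)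
    · rw [← hins]
      exact Set.mem_insert _ _
    · rintro A (rfl | hA)
      · exact ⟨t, ht.1, ht.2, rfl⟩
      · exact h1 hA
    · refine h2.insert fun B hB hne => ?_
      obtain ⟨T, hT, rfl⟩ := hrep B hB
      rcases hcomp T ⟨hT, hB⟩ with h | h
      · exact Or.inr (rel_cls.2 h)
      · exact Or.inl (rel_cls.2 h)

/-- The final theorem, from `chains_iso` and `sat_calkin`. -/
theorem allMaximalChainsIso (hCP : CohenPrinciple) : AllMaximalChainsIso := by
  intro H _ _ _ _ hinf P hP R hR C D hC hD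
  subst hP hR
  have hC' := isMax_of_classes hC.1 hC.2.1 hC.2.2
  have hD' := isMax_of_classes hD.1 hD.2.1 hD.2.2
  obtain ⟨Φ, h1, h2, h3⟩ := chains_iso (calkin H) hCP sat_calkin hC' hD'
  -- representatives
  have hrepC : ∀ c : C, ∃ T : H →L[ℂ] H, (T ∈ PD H ∧ cls T ∈ C) ∧ c.1 = cls T := by
    rintro ⟨c, hc⟩
    obtain ⟨T, hT1, hT2, rfl⟩ := hC.1 hc
    exact ⟨T, ⟨⟨hT1, hT2⟩, hc⟩, rfl⟩
  have hrepD : ∀ d : D, ∃ T : H →L[ℂ] H, (T ∈ PD H ∧ cls T ∈ D) ∧ d.1 = cls T := by
    rintro ⟨c, hc⟩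
    obtain ⟨T, hT1, hT2, rfl⟩ := hD.1 hc
    exact ⟨T, ⟨⟨hT1, hT2⟩, hc⟩, rfl⟩
  choose t ht htc using hrepC
  have hS : ∀ c : C, ∃ S : H →L[ℂ] H, (S ∈ PD H ∧ cls S ∈ D) ∧ Φ (t c) S := by
    intro c
    obtain ⟨S, hS, hΦ⟩ := h1 (t c) (ht c)
    exact ⟨S, hS, hΦ⟩
  choose s hs hΦ using hS
  have hord : ∀ c c' : C, ple (t c) (t c') ↔ ple (s c) (s c') := fun c c' =>
    h3 (t c) (ht c) (t c') (ht c') (s c) (hs c) (s c') (hs c') (hΦ c) (hΦ c')
  have hbij : Function.Bijective (fun c : C => (⟨cls (s c), (hs c).2⟩ : D)) := by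
    constructor
    · intro c c' h
      have h4 : cls (s c) = cls (s c') := congrArg Subtype.val h
      rw [cls_eq (hs c).1 (hs c').1, ← hord, ← hord, ← cls_eq (ht c).1 (ht c').1, ← htc, ← htc] at h4
      exact Subtype.ext h4
    · intro d
      obtain ⟨S, hS, hdS⟩ := hrepD d
      obtain ⟨T, hT, hTS⟩ := h2 S hS
      let c : C := ⟨cls T, hT.2⟩
      have h5 : cls T = cls (t c) := htc c
      rw [cls_eq hT.1 (ht c).1] at h5
      have h6 : ple T (t c) ↔ ple S (s c) := h3 T hT (t c) (ht c) S hS (s c) (hs c) hTS (hΦ c)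
      have h7 : ple (t c) T ↔ ple (s c) S := h3 (t c) (ht c) T hT (s c) (hs c) S hS (hΦ c) hTS
      refine ⟨c, Subtype.ext ?_⟩
      show cls (s c) = d.1
      rw [hdS, cls_eq (hs c).1 hS.1]
      exact ⟨h7.1 h5.2, h6.1 h5.1⟩
  refine ⟨Equiv.ofBijective _ hbij, fun a b => ?_⟩
  show (∃ T ∈ a.1, ∃ S ∈ b.1, IsCompactOperator ⇑(T * S - T : H →L[ℂ] H)) ↔
    ∃ T ∈ cls (s a), ∃ S ∈ cls (s b), IsCompactOperator ⇑(T * S - T : H →L[ℂ] H)
  rw [rel_cls, htc a, htc b, rel_cls]
  exact hord a b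

end Pool.Agent.CPr
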